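import Pool.Agent.Helper57.QZ.Stmts2

/-!
# Row KE3: continuity of the smoothing coefficients
-/

set_option autoImplicit false

namespace Pool.Agent.Helper57.QZ

open MeasureTheory Set Filter Topology

theorem st_KE3 : ST_KE3 := by
  intro Y H n hY hH hn
  have hn' : (0:ℝ) < n := by exact_mod_cast hn
  have hb : (0:ℝ) < Y / n := div_pos hY hn'
  have hb' : ((Y / n : ℝ) : ℂ) ≠ 0 := by exact_mod_cast hb.ne'
  let w : ℝ → ℝ → ℂ := fun x v => ((max (5 - x) 1 : ℝ) : ℂ) + (v : ℂ) * Complex.I
  have hw : Continuous (fun q : ℝ × ℝ => w q.1 q.2) := by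
    simp only [w]
    fun_prop
  have hw0 : ∀ q : ℝ × ℝ, w q.1 q.2 ≠ 0 := by
    intro q h
    have h2 := congrArg Complex.re h
    have h1 : (1:ℝ) ≤ max (5 - q.1) 1 := le_max_right _ _
    simp only [w, Complex.add_re, Complex.ofReal_re, Complex.mul_re, Complex.I_re, mul_zero,
      Complex.ofReal_im, Complex.I_im, mul_one, sub_self, add_zero, Complex.zero_re] at h2
    linarith
  have hc : Continuous (fun x : ℝ => ((1 / (2 * Real.pi) : ℝ) : ℂ) * ∫ v in (-H)..H,
      ((Y / n : ℝ) : ℂ) ^ (w x v) * Complex.exp ((w x v) ^ 2) / (w x v)) := by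
    apply Continuous.mul continuous_const
    apply intervalIntegral.continuous_parametric_intervalIntegral_of_continuous'
    have h3 : Continuous (fun q : ℝ × ℝ => ((Y / n : ℝ) : ℂ) ^ (w q.1 q.2) *
        Complex.exp ((w q.1 q.2) ^ 2) / (w q.1 q.2)) := by
      refine Continuous.div (Continuous.mul ?_ ?_) hw hw0
      · exact Continuous.const_cpow hw (Or.inl hb')
      · exact Complex.continuous_exp.comp (hw.pow 2)
    exact h3
  refine hc.continuousOn.congr ?_
  intro x hx
  have hm : max (5 - x) 1 = 5 - x := max_eq_left (by linarith [hx.2])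
  simp only [KK, w, hm]

end Pool.Agent.Helper57.QZ
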